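import Pool.Agent.helper62.LL.SpecG

/-!
# Row ll:ENG (MP_07c750): a set with light boxes does not charge small sets
-/

set_option autoImplicit false

open scoped MatrixGroups ContDiff Topology UpperHalfPlane
open UpperHalfPlane MeasureTheory Filter Set

namespace Pool.Agent.LL

open Pool.Agent.EN (XG MG mkX mkM fl pr)

theorem ENG_pr (Γ : Subgroup SL(2, ℝ)) : Continuous (pr Γ) := by
  have hc1 : Continuous (mkX Γ) := continuous_quotient_mk'
  have ho1 : IsOpenMap (mkX Γ) := isOpenMap_quotient_mk'_mul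
  have hs1 : Function.Surjective (mkX Γ) := Quotient.mk_surjective
  have hc2 : Continuous (mkM Γ) := continuous_quotient_mk'
  have hq : IsOpenQuotientMap (mkX Γ) := ⟨hs1, hc1, ho1⟩
  rw [hq.isQuotientMap.continuous_iff]
  have : pr Γ ∘ mkX Γ = fun g => mkM Γ (g • I) := by
    funext g
    rfl
  rw [this]
  exact hc2.comp (continuous_id.smul continuous_const)

theorem ENG_proof (h1 : EN2_stmt) (h2 : ACM_stmt) (h3 : MDP_stmt) (h4 : WGB_stmt) (h5 : WGT_stmt) : ENG_stmt := by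
  intro Γ μ 𝒢 E r C v α hΓ hμ hinv h𝒢 hE hr hr1 hα hαv hv2 hsm hbox
  obtain ⟨-, hwt, -, hlast⟩ := h5 Γ μ 𝒢 hΓ hμ hinv h𝒢
  obtain ⟨C', hC'⟩ := h4 Γ μ 𝒢 r C v hΓ hμ hinv h𝒢 hr hr1 (by linarith) hv2 hbox
  have hfin : IsFiniteMeasure (wm Γ μ 𝒢) := by
    apply isFiniteMeasure_withDensity
    have h : ∫⁻ x, ENNReal.ofReal (wt Γ 𝒢 x) ∂μ ≤ ∫⁻ _, 1 ∂μ :=
      lintegral_mono fun x => ENNReal.ofReal_le_one.2 (hwt x).2
    rw [lintegral_one, measure_univ] at h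
    exact ne_top_of_le_ne_top ENNReal.one_ne_top h
  have hprm : Measurable (pr Γ) := (ENG_pr Γ).measurable
  have hσ : IsFiniteMeasure ((wm Γ μ 𝒢).map (pr Γ)) := inferInstance
  have key : ((wm Γ μ 𝒢).map (pr Γ)) E = 0 := by
    rcases hsm with ⟨rfl, hvol⟩ | ⟨hα1, hH⟩
    · obtain ⟨C'', hC''⟩ := h1 Γ μ 𝒢 r C' v 1 hΓ hμ hinv h𝒢 hr hr1 one_pos le_rfl hαv hC'
      exact h2 Γ _ C'' E hΓ hσ hC'' hE hvol
    · have hw0 : α < min ((α + v) / 2) ((α + 1) / 2) := lt_min (by linarith) (by linarith)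
      have hw1 : min ((α + v) / 2) ((α + 1) / 2) ≤ 1 := le_trans (min_le_right _ _) (by linarith)
      have hwv : min ((α + v) / 2) ((α + 1) / 2) < v := lt_of_le_of_lt (min_le_left _ _) (by linarith)
      obtain ⟨C'', hC''⟩ := h1 Γ μ 𝒢 r C' v _ hΓ hμ hinv h𝒢 hr hr1 (hα.trans hw0) hw1 hwv hC'
      exact h3 Γ _ C'' _ α E hΓ hσ hα hw0 hC'' hE hH
  rw [Measure.map_apply hprm hE] at key
  exact hlast _ (hprm hE) key

end Pool.Agent.LL
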